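import Pool.Agent.H51.Hopf

namespace Pool.Agent.Results.MP_3d7355_an.Counter
open Pool.Agent.H51.HopfDefs

/-- For `n = 2` there are smooth `u`, `v` satisfying conditions 1-5 with `u > v` somewhere. -/
theorem result : ∃ u v : ℝ × ℝ → ℝ, ContDiff ℝ (⊤ : ℕ∞) u ∧ ContDiff ℝ (⊤ : ℕ∞) v ∧
    (∀ p ∈ Om, v p ≤ u p) ∧
    (∀ p ∈ Om, 0 < u p ∧ 0 < v p ∧ 0 < dt u p) ∧ (∀ y : ℝ, |y| < 1 → u (0, y) = 0) ∧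
    (∀ t s y : ℝ, 0 < t → t ≤ s → s < 1 → |y| < 1 → u (t, y) = v (s, y) →
      lap u (t, y) ≤ lap v (s, y)) ∧ dt u (0, 0) = 0 ∧
    (u (0, 0) = 0 ∧ ∃ k, iteratedDeriv k (fun t => u (t, 0)) 0 ≠ 0) ∧
    (v (0, 0) = 0 ∧ ∃ k, iteratedDeriv k (fun t => v (t, 0)) 0 ≠ 0) ∧
    ∃ p ∈ Om, v p < u p :=
  ⟨_, _, Pool.Agent.H51.Hopf.main⟩

end Pool.Agent.Results.MP_3d7355_an.Counter
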